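import Pool.Agent.X189.FZ.Rup

set_option autoImplicit false

namespace Pool.Agent.X189.FZ

/-- colours (indices) of the 22 terms -/
def colL : List Nat := [0, 1, 2, 3, 2, 3, 1, 3, 1, 2, 0, 3, 0, 2, 0, 3, 0, 1, 0, 2, 0, 1]
/-- parents of the 22 terms -/
def parL : List Nat := [0, 0, 0, 0, 1, 1, 2, 2, 3, 3, 4, 4, 5, 5, 6, 6, 7, 7, 8, 8, 9, 9]

def col (i : Nat) : Nat := colL.getD i 0
def par (i : Nat) : Nat := parL.getD i 0

/-- variable of a pair -/
def pv (i j : Nat) : Nat :=
  match Nat.ble i j with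
  | true => 22 * i + j
  | false => 22 * j + i

/-- variable of a label -/
def lv (i a : Nat) : Nat := 484 + 3 * i + a

inductive Ds where
  | p5 (a b c d f : Nat)
  | dom (t w x : Nat)
  | el (i j a : Nat)
  | one (i : Nat)
  | amo (i a b : Nat)
  | par (t : Nat)
  | unit (i a : Nat)

/-- the list of pair variables of pairs with different colour -/
def neqs : List (Nat × Nat) → List Nat
  | [] => []
  | (i, j) :: l => match Nat.beq (col i) (col j) with
    | true => neqs l
    | false => pv i j :: neqs l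

def Ds.cl : Ds → Cl
  | .p5 a b c d f => (mask (neqs [(a, c), (a, d), (a, f), (b, d), (b, f), (c, f)]),
      mask [pv a b, pv b c, pv c d, pv d f])
  | .dom t w x => (mask [pv t x], mask [pv (Pool.Agent.X189.FZ.par t) w, pv w x])
  | .el i j a => (mask [], mask [pv i j, lv i a, lv j a])
  | .one i => (mask [lv i 0, lv i 1, lv i 2], mask [])
  | .amo i a b => (mask [], mask [lv i a, lv i b])
  | .par t => (mask [pv (Pool.Agent.X189.FZ.par t) t], mask [])
  | .unit i a => (mask [lv i a], mask [])

def lt22 (i : Nat) : Bool := Nat.ble i 21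

def Ds.ok (u3 : Nat) : Ds → Bool
  | .p5 a b c d f => lt22 a && lt22 b && lt22 c && lt22 d && lt22 f
  | .dom t w x => Nat.ble 1 t && lt22 t && lt22 w && lt22 x && Nat.beq (col w) (col t) &&
      Nat.beq (col x) (col (Pool.Agent.X189.FZ.par t))
  | .el i j a => lt22 i && lt22 j && Nat.ble a 2
  | .one i => lt22 i
  | .amo i a b => lt22 i && Nat.ble a 2 && Nat.ble b 2 && !(Nat.beq a b)
  | .par t => Nat.ble 1 t && lt22 t
  | .unit i a => (Nat.beq i 0 && Nat.beq a 0) || (Nat.beq i 1 && Nat.beq a 1) ||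
      (Nat.beq i 2 && Nat.beq a 1) || (Nat.beq i 3 && Nat.beq a u3 && Nat.ble u3 2)

/-- insert the base clauses -/
def base (u3 : Nat) : T → Nat → List Ds → Option T
  | t, _, [] => some t
  | t, k, d :: l => match d.ok u3 with
    | true => base u3 (t.set k d.cl) (k + 1) l
    | false => none

def check (u3 : Nat) (ds : List Ds) (st : List (Nat × Nat × List Nat)) : Bool :=
  match base u3 (T.mk 10) 0 ds with
  | some t => run t ds.length st
  | none => false

variable {V : Type} (G : SimpleGraph V)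

/-- the assignment -/
def asg (C : V → Fin 3) (l : Nat → Fin 3) (v : Nat → V) (n : Nat) : Prop :=
  if n < 484 then G.Adj (v (n / 22)) (v (n % 22)) else C (v ((n - 484) / 3)) = l ((n - 484) % 3)

structure Model (C : V → Fin 3) (c : V → Fin 4) (k : Nat → Fin 4) (l : Nat → Fin 3)
    (v : Nat → V) (u3 : Nat) : Prop where
  p5 : ∀ a b x d f : V, G.Adj a b → G.Adj b x → G.Adj x d → G.Adj d f → ¬ G.Adj a x →
    ¬ G.Adj a d → ¬ G.Adj a f → ¬ G.Adj b d → ¬ G.Adj b f → ¬ G.Adj x f → False
  hc : ∀ a b, G.Adj a b → c a ≠ c b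
  hC : ∀ a b, G.Adj a b → C a ≠ C b
  hcol : ∀ i, i < 22 → c (v i) = k (col i)
  hpar : ∀ i, 1 ≤ i → i < 22 → G.Adj (v (par i)) (v i)
  hdom : ∀ i, 1 ≤ i → i < 22 → ∀ w x, c w = c (v i) → c x = c (v (par i)) →
    G.Adj (v (par i)) w → G.Adj w x → G.Adj (v i) x
  hl : ∀ x, x = l 0 ∨ x = l 1 ∨ x = l 2
  hl01 : l 0 ≠ l 1
  hl02 : l 0 ≠ l 2
  hl12 : l 1 ≠ l 2
  h0 : C (v 0) = l 0
  h1 : C (v 1) = l 1
  h2 : C (v 2) = l 1
  h3 : C (v 3) = l u3

theorem asg_pv (C : V → Fin 3) (l : Nat → Fin 3) (v : Nat → V) (i j : Nat) (hi : i < 22)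
    (hj : j < 22) : asg G C l v (pv i j) ↔ G.Adj (v i) (v j) := by
  unfold pv
  split
  · have h1 : 22 * i + j < 484 := by omega
    have h2 : (22 * i + j) / 22 = i := by omega
    have h3 : (22 * i + j) % 22 = j := by omega
    unfold asg
    rw [if_pos h1, h2, h3]
  · have h1 : 22 * j + i < 484 := by omega
    have h2 : (22 * j + i) / 22 = j := by omega
    have h3 : (22 * j + i) % 22 = i := by omega
    unfold asg
    rw [if_pos h1, h2, h3]
    exact G.adj_comm _ _

theorem asg_lv (C : V → Fin 3) (l : Nat → Fin 3) (v : Nat → V) (i a : Nat) (ha : a < 3) :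
    asg G C l v (lv i a) ↔ C (v i) = l a := by
  unfold lv asg
  have h1 : ¬ (484 + 3 * i + a < 484) := by omega
  have h2 : (484 + 3 * i + a - 484) / 3 = i := by omega
  have h3 : (484 + 3 * i + a - 484) % 3 = a := by omega
  rw [if_neg h1, h2, h3]

theorem lt22_iff {i : Nat} (h : lt22 i = true) : i < 22 := by
  have := Nat.le_of_ble_eq_true h
  omega

theorem mem_neqs {L : List (Nat × Nat)} {i j : Nat} (h : (i, j) ∈ L) (hc : col i ≠ col j) :
    pv i j ∈ neqs L := by
  induction L with
  | nil => simp at h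
  | cons p L ih =>
    obtain ⟨a, b⟩ := p
    rcases List.mem_cons.mp h with h | h
    · injection h with h1 h2
      subst h1; subst h2
      unfold neqs
      split
      · rename_i hb
        exact absurd (Nat.eq_of_beq_eq_true hb) hc
      · exact List.mem_cons_self
    · unfold neqs
      split
      · exact ih h
      · exact List.mem_cons_of_mem _ (ih h)

variable {G}

theorem Model.cl_holds {C : V → Fin 3} {c : V → Fin 4} {k : Nat → Fin 4} {l : Nat → Fin 3}
    {v : Nat → V} {u3 : Nat} (M : Model G C c k l v u3) (d : Ds) (hd : d.ok u3 = true) :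
    Holds (asg G C l v) d.cl := by
  have hinj : ∀ a b, a < 3 → b < 3 → a ≠ b → l a ≠ l b := by
    intro a b ha hb hab
    have := M.hl01
    have := M.hl02
    have := M.hl12
    interval_cases a <;> interval_cases b <;> first | exact absurd rfl hab | assumption | (exact Ne.symm (by assumption))
  cases d with
  | p5 a b x d f =>
    simp only [Ds.ok, Bool.and_eq_true] at hd
    obtain ⟨⟨⟨⟨ha, hb⟩, hx⟩, hd'⟩, hf⟩ := hd
    replace ha := lt22_iff ha
    replace hb := lt22_iff hb
    replace hx := lt22_iff hx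
    replace hd' := lt22_iff hd'
    replace hf := lt22_iff hf
    have same : ∀ i j, i < 22 → j < 22 → G.Adj (v i) (v j) → col i ≠ col j := by
      intro i j hi hj hadj he
      apply M.hc _ _ hadj
      rw [M.hcol i hi, M.hcol j hj, he]
    apply holds_mask
    by_contra hn
    push Not at hn
    obtain ⟨hn1, hn2⟩ := hn
    have e1 := (asg_pv G C l v a b ha hb).mp (hn2 _ (by simp))
    have e2 := (asg_pv G C l v b x hb hx).mp (hn2 _ (by simp))
    have e3 := (asg_pv G C l v x d hx hd').mp (hn2 _ (by simp))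
    have e4 := (asg_pv G C l v d f hd' hf).mp (hn2 _ (by simp))
    have non : ∀ i j, i < 22 → j < 22 → (i, j) ∈ [(a, x), (a, d), (a, f), (b, d), (b, f), (x, f)] →
        ¬ G.Adj (v i) (v j) := by
      intro i j hi hj hm hadj
      exact hn1 _ (mem_neqs hm (same i j hi hj hadj)) ((asg_pv G C l v i j hi hj).mpr hadj)
    exact M.p5 _ _ _ _ _ e1 e2 e3 e4 (non a x ha hx (by simp)) (non a d ha hd' (by simp))
      (non a f ha hf (by simp)) (non b d hb hd' (by simp)) (non b f hb hf (by simp))
      (non x f hx hf (by simp))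
  | dom t w x =>
    simp only [Ds.ok, Bool.and_eq_true] at hd
    obtain ⟨⟨⟨⟨⟨h1, ht⟩, hw⟩, hx⟩, hcw⟩, hcx⟩ := hd
    replace h1 := Nat.le_of_ble_eq_true h1
    replace ht := lt22_iff ht
    replace hw := lt22_iff hw
    replace hx := lt22_iff hx
    replace hcw := Nat.eq_of_beq_eq_true hcw
    replace hcx := Nat.eq_of_beq_eq_true hcx
    have hp : par t < 22 := by interval_cases t <;> decide
    apply holds_mask
    by_contra hn
    push Not at hn
    obtain ⟨hn1, hn2⟩ := hn
    have e1 := (asg_pv G C l v (par t) w hp hw).mp (hn2 _ (by simp))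
    have e2 := (asg_pv G C l v w x hw hx).mp (hn2 _ (by simp))
    refine hn1 (pv t x) (by simp) ((asg_pv G C l v t x ht hx).mpr ?_)
    exact M.hdom t h1 ht (v w) (v x) (by rw [M.hcol w hw, M.hcol t ht, hcw])
      (by rw [M.hcol x hx, M.hcol _ hp, hcx]) e1 e2
  | el i j a =>
    simp only [Ds.ok, Bool.and_eq_true] at hd
    obtain ⟨⟨hi, hj⟩, ha⟩ := hd
    replace hi := lt22_iff hi
    replace hj := lt22_iff hj
    replace ha := Nat.le_of_ble_eq_true ha
    apply holds_mask
    by_contra hn
    push Not at hn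
    obtain ⟨-, hn2⟩ := hn
    have e1 := (asg_pv G C l v i j hi hj).mp (hn2 _ (by simp))
    have e2 := (asg_lv G C l v i a (by omega)).mp (hn2 _ (by simp))
    have e3 := (asg_lv G C l v j a (by omega)).mp (hn2 _ (by simp))
    exact M.hC _ _ e1 (e2.trans e3.symm)
  | one i =>
    apply holds_mask
    left
    rcases M.hl (C (v i)) with h | h | h
    · exact ⟨_, by simp, (asg_lv G C l v i 0 (by omega)).mpr h⟩
    · exact ⟨_, by simp, (asg_lv G C l v i 1 (by omega)).mpr h⟩
    · exact ⟨_, by simp, (asg_lv G C l v i 2 (by omega)).mpr h⟩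
  | amo i a b =>
    simp only [Ds.ok, Bool.and_eq_true] at hd
    obtain ⟨⟨⟨hi, ha⟩, hb⟩, hab⟩ := hd
    replace ha := Nat.le_of_ble_eq_true ha
    replace hb := Nat.le_of_ble_eq_true hb
    have hab' : a ≠ b := by
      rintro rfl
      simp at hab
    apply holds_mask
    by_contra hn
    push Not at hn
    obtain ⟨-, hn2⟩ := hn
    have e2 := (asg_lv G C l v i a (by omega)).mp (hn2 _ (by simp))
    have e3 := (asg_lv G C l v i b (by omega)).mp (hn2 _ (by simp))
    exact hinj a b (by omega) (by omega) hab' (e2.symm.trans e3)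
  | par t =>
    simp only [Ds.ok, Bool.and_eq_true] at hd
    obtain ⟨h1, ht⟩ := hd
    replace h1 := Nat.le_of_ble_eq_true h1
    replace ht := lt22_iff ht
    have hp : par t < 22 := by interval_cases t <;> decide
    apply holds_mask
    left
    exact ⟨_, by simp, (asg_pv G C l v (par t) t hp ht).mpr (M.hpar t h1 ht)⟩
  | unit i a =>
    simp only [Ds.ok, Bool.and_eq_true, Bool.or_eq_true] at hd
    apply holds_mask
    left
    rcases hd with ((⟨h1, h2⟩ | ⟨h1, h2⟩) | ⟨h1, h2⟩) | ⟨⟨h1, h2⟩, h3⟩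
    · replace h1 := Nat.eq_of_beq_eq_true h1
      replace h2 := Nat.eq_of_beq_eq_true h2
      subst h1; subst h2
      exact ⟨_, by simp, (asg_lv G C l v 0 0 (by omega)).mpr M.h0⟩
    · replace h1 := Nat.eq_of_beq_eq_true h1
      replace h2 := Nat.eq_of_beq_eq_true h2
      subst h1; subst h2
      exact ⟨_, by simp, (asg_lv G C l v 1 1 (by omega)).mpr M.h1⟩
    · replace h1 := Nat.eq_of_beq_eq_true h1
      replace h2 := Nat.eq_of_beq_eq_true h2
      subst h1; subst h2
      exact ⟨_, by simp, (asg_lv G C l v 2 1 (by omega)).mpr M.h2⟩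
    · replace h1 := Nat.eq_of_beq_eq_true h1
      replace h2 := Nat.eq_of_beq_eq_true h2
      replace h3 := Nat.le_of_ble_eq_true h3
      subst h1; subst h2
      exact ⟨_, by simp, (asg_lv G C l v 3 a (by omega)).mpr M.h3⟩

theorem Model.base_all {C : V → Fin 3} {c : V → Fin 4} {k : Nat → Fin 4} {l : Nat → Fin 3}
    {v : Nat → V} {u3 : Nat} (M : Model G C c k l v u3) :
    ∀ (ds : List Ds) (t : T) (n : Nat) (t' : T), t.All (asg G C l v) →
      base u3 t n ds = some t' → t'.All (asg G C l v)
  | [], t, n, t', ht, h => by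
    simp only [base, Option.some.injEq] at h
    rw [← h]; exact ht
  | d :: ds, t, n, t', ht, h => by
    unfold base at h
    split at h
    · rename_i hd
      exact M.base_all ds _ _ _ (T.all_set _ t ht _ _ (M.cl_holds d hd)) h
    · exact absurd h (by simp)

theorem Model.false {C : V → Fin 3} {c : V → Fin 4} {k : Nat → Fin 4} {l : Nat → Fin 3}
    {v : Nat → V} {u3 : Nat} (M : Model G C c k l v u3) (ds : List Ds)
    (st : List (Nat × Nat × List Nat)) (h : check u3 ds st = true) : False := by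
  unfold check at h
  split at h
  · rename_i t ht
    exact run_sound (asg G C l v) st t _ (M.base_all ds _ _ _ (T.all_mk _ 10) ht) h
  · exact absurd h (by simp)

end Pool.Agent.X189.FZ
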