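import Mathlib

set_option autoImplicit false

/-! A small kernel-friendly RUP (unit propagation) checker.  Clauses are pairs of bit masks
(positive literals, negative literals). -/

namespace Pool.Agent.X189.FZ

abbrev Cl := Nat × Nat

def Holds (σ : Nat → Prop) (c : Cl) : Prop :=
  ∃ i, (Nat.testBit c.1 i = true ∧ σ i) ∨ (Nat.testBit c.2 i = true ∧ ¬ σ i)

inductive T where
  | leaf (c : Cl)
  | node (l r : T)

def T.get : T → Nat → Cl
  | .leaf c, _ => c
  | .node l r, n => match Nat.beq (n % 2) 0 with
    | true => l.get (n / 2)
    | false => r.get (n / 2)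

def T.set : T → Nat → Cl → T
  | .leaf _, _, c => .leaf c
  | .node l r, n, c => match Nat.beq (n % 2) 0 with
    | true => .node (l.set (n / 2) c) r
    | false => .node l (r.set (n / 2) c)

def T.mk : Nat → T
  | 0 => .leaf (1, 1)
  | n + 1 => .node (T.mk n) (T.mk n)

def T.All (σ : Nat → Prop) : T → Prop
  | .leaf c => Holds σ c
  | .node l r => l.All σ ∧ r.All σ

theorem T.all_mk (σ : Nat → Prop) (n : Nat) : (T.mk n).All σ := by
  induction n with
  | zero =>
    refine ⟨0, ?_⟩
    by_cases h : σ 0
    · left; exact ⟨by simp, h⟩
    · right; exact ⟨by simp, h⟩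
  | succ n ih => exact ⟨ih, ih⟩

theorem T.all_get (σ : Nat → Prop) : ∀ (t : T), t.All σ → ∀ n, Holds σ (t.get n)
  | .leaf c, h, _ => h
  | .node l r, h, n => by
    unfold T.get
    split
    · exact T.all_get σ l h.1 _
    · exact T.all_get σ r h.2 _

theorem T.all_set (σ : Nat → Prop) : ∀ (t : T), t.All σ → ∀ n c, Holds σ c → (t.set n c).All σ
  | .leaf c, _, _, _, hd => hd
  | .node l r, h, n, c, hd => by
    unfold T.set
    split
    · exact ⟨T.all_set σ l h.1 _ _ hd, h.2⟩
    · exact ⟨h.1, T.all_set σ r h.2 _ _ hd⟩

def diff (a b : Nat) : Nat := Nat.xor a (Nat.land a b)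

theorem testBit_diff (a b i : Nat) :
    Nat.testBit (diff a b) i = (Nat.testBit a i && !Nat.testBit b i) := by
  have h1 : diff a b = a ^^^ (a &&& b) := rfl
  rw [h1, Nat.testBit_xor, Nat.testBit_and]
  cases Nat.testBit a i <;> cases Nat.testBit b i <;> rfl

def rup (t : T) : List Nat → Nat → Nat → Bool
  | [], _, _ => false
  | h :: hs, P, F =>
    match Nat.beq (diff (t.get h).1 F) 0 with
    | true =>
      match Nat.beq (diff (t.get h).2 P) 0 with
      | true => true
      | false =>
        match Nat.beq (diff (t.get h).2 P) (2 ^ Nat.log2 (diff (t.get h).2 P)) with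
        | true => rup t hs P (Nat.lor F (diff (t.get h).2 P))
        | false => false
    | false =>
      match Nat.beq (diff (t.get h).2 P) 0 with
      | true =>
        match Nat.beq (diff (t.get h).1 F) (2 ^ Nat.log2 (diff (t.get h).1 F)) with
        | true => rup t hs (Nat.lor P (diff (t.get h).1 F)) F
        | false => false
      | false => false

theorem rup_sound (σ : Nat → Prop) (t : T) (ht : t.All σ) :
    ∀ (hs : List Nat) (P F : Nat), (∀ i, Nat.testBit P i = true → σ i) →
      (∀ i, Nat.testBit F i = true → ¬ σ i) → rup t hs P F = true → False := by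
  intro hs
  induction hs with
  | nil => intro P F _ _ h; simp [rup] at h
  | cons h hs ih =>
    intro P F hP hF hr
    obtain ⟨i, hi⟩ := T.all_get σ t ht h
    set d := t.get h with hd
    -- literal facts
    have key : (Nat.testBit (diff d.1 F) i = true ∧ σ i) ∨
        (Nat.testBit (diff d.2 P) i = true ∧ ¬ σ i) := by
      rcases hi with ⟨h1, h2⟩ | ⟨h1, h2⟩
      · left
        refine ⟨?_, h2⟩
        rw [testBit_diff, h1]
        have : Nat.testBit F i = false := by
          by_contra hc
          exact hF i (by simpa using hc) h2
        simp [this]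
      · right
        refine ⟨?_, h2⟩
        rw [testBit_diff, h1]
        have : Nat.testBit P i = false := by
          by_contra hc
          exact h2 (hP i (by simpa using hc))
        simp [this]
    unfold rup at hr
    rw [← hd] at hr
    split at hr
    · rename_i h0
      have h0' : diff d.1 F = 0 := Nat.eq_of_beq_eq_true h0
      have key2 : Nat.testBit (diff d.2 P) i = true ∧ ¬ σ i := by
        rcases key with ⟨a, _⟩ | k
        · rw [h0'] at a; simp at a
        · exact k
      split at hr
      · rename_i h1
        have h1' : diff d.2 P = 0 := Nat.eq_of_beq_eq_true h1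
        rw [h1'] at key2
        simp at key2
      · split at hr
        · rename_i h2
          have h2' : diff d.2 P = 2 ^ Nat.log2 (diff d.2 P) := Nat.eq_of_beq_eq_true h2
          refine ih P _ hP ?_ hr
          intro j hj
          have e : Nat.lor F (diff d.2 P) = F ||| diff d.2 P := rfl
          rw [e, Nat.testBit_or] at hj
          have hij : i = Nat.log2 (diff d.2 P) := by
            have := key2.1
            rw [h2', Nat.testBit_two_pow] at this
            exact (of_decide_eq_true this).symm
          rcases Bool.or_eq_true_iff.mp hj with hj | hj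
          · exact hF j hj
          · rw [h2', Nat.testBit_two_pow] at hj
            have hj' := of_decide_eq_true hj
            have : j = i := by rw [hij]; exact hj'.symm
            rw [this]; exact key2.2
        · exact absurd hr (by simp)
    · split at hr
      · rename_i h1
        have h1' : diff d.2 P = 0 := Nat.eq_of_beq_eq_true h1
        have key2 : Nat.testBit (diff d.1 F) i = true ∧ σ i := by
          rcases key with k | ⟨a, _⟩
          · exact k
          · rw [h1'] at a; simp at a
        split at hr
        · rename_i h2
          have h2' : diff d.1 F = 2 ^ Nat.log2 (diff d.1 F) := Nat.eq_of_beq_eq_true h2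
          refine ih _ F ?_ hF hr
          intro j hj
          have e : Nat.lor P (diff d.1 F) = P ||| diff d.1 F := rfl
          rw [e, Nat.testBit_or] at hj
          have hij : i = Nat.log2 (diff d.1 F) := by
            have := key2.1
            rw [h2', Nat.testBit_two_pow] at this
            exact (of_decide_eq_true this).symm
          rcases Bool.or_eq_true_iff.mp hj with hj | hj
          · exact hP j hj
          · rw [h2', Nat.testBit_two_pow] at hj
            have hj' := of_decide_eq_true hj
            have : j = i := by rw [hij]; exact hj'.symm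
            rw [this]; exact key2.2
        · exact absurd hr (by simp)
      · exact absurd hr (by simp)

theorem rup_holds (σ : Nat → Prop) (t : T) (ht : t.All σ) (hs : List Nat) (c : Cl)
    (h : rup t hs c.2 c.1 = true) : Holds σ c := by
  by_contra hn
  refine rup_sound σ t ht hs c.2 c.1 ?_ ?_ h
  · intro i hi
    by_contra hσ
    exact hn ⟨i, Or.inr ⟨hi, hσ⟩⟩
  · intro i hi hσ
    exact hn ⟨i, Or.inl ⟨hi, hσ⟩⟩

/-- run the learned steps; the last one must be the empty clause -/
def run : T → Nat → List (Nat × Nat × List Nat) → Bool
  | _, _, [] => false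
  | t, k, (p, n, hs) :: rest =>
    match rup t hs n p with
    | true =>
      match Nat.beq p 0 && Nat.beq n 0 with
      | true => true
      | false => run (t.set k (p, n)) (k + 1) rest
    | false => false

theorem run_sound (σ : Nat → Prop) : ∀ (l : List (Nat × Nat × List Nat)) (t : T) (k : Nat),
    t.All σ → run t k l = true → False
  | [], t, k, _, h => by simp [run] at h
  | (p, n, hs) :: rest, t, k, ht, h => by
    unfold run at h
    split at h
    · rename_i h1
      have hh : Holds σ (p, n) := rup_holds σ t ht hs (p, n) h1
      split at h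
      · rename_i h2
        rw [Bool.and_eq_true] at h2
        have hp : p = 0 := Nat.eq_of_beq_eq_true h2.1
        have hn : n = 0 := Nat.eq_of_beq_eq_true h2.2
        subst hp; subst hn
        obtain ⟨i, hi⟩ := hh
        simp at hi
      · exact run_sound σ rest _ _ (T.all_set σ t ht _ _ hh) h
    · exact absurd h (by simp)

/-- masks from index lists -/
def mask : List Nat → Nat
  | [] => 0
  | i :: l => Nat.lor (2 ^ i) (mask l)

theorem testBit_mask (l : List Nat) (i : Nat) (h : i ∈ l) : Nat.testBit (mask l) i = true := by
  induction l with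
  | nil => simp at h
  | cons a l ih =>
    have e : mask (a :: l) = 2 ^ a ||| mask l := rfl
    rw [e, Nat.testBit_or]
    rcases List.mem_cons.mp h with h | h
    · subst h; simp
    · rw [ih h]; simp

theorem holds_mask (σ : Nat → Prop) (ps ns : List Nat)
    (h : (∃ i ∈ ps, σ i) ∨ (∃ i ∈ ns, ¬ σ i)) : Holds σ (mask ps, mask ns) := by
  rcases h with ⟨i, hi, hs⟩ | ⟨i, hi, hs⟩
  · exact ⟨i, Or.inl ⟨testBit_mask ps i hi, hs⟩⟩
  · exact ⟨i, Or.inr ⟨testBit_mask ns i hi, hs⟩⟩

end Pool.Agent.X189.FZ
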